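import Pool.Agent.W295.PR.Stm

/-! Project PR, part PR-LT2 -/

set_option autoImplicit false

namespace Pool.Agent.W446.PR.LT2

open Pool.Agent.W295.PR

theorem main (h1 : S_LT1) (_h2 : S_PPn) (h3 : S_EV) : S_LT2 := by
  intro G _ _ _ N D lam hl e u hu x hx v hv
  have mem : ∀ (e : ℤ) (u x v : G), u ∈ N.G0 → x ∈ N.G0 → v ∈ N.G0 → gpp N D e u x v ∈ PP N D :=
    fun e u x v hu hx hv => Subgroup.subset_closure ⟨e, u, x, v, hu, hx, hv, rfl⟩
  have o : (1 : G) ∈ N.G0 := one_mem _
  -- cocycle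
  have coc : ∀ (e : ℤ) (u v w : G), u ∈ N.G0 → v ∈ N.G0 → w ∈ N.G0 →
      lam (gpp N D e u 1 v) * lam (gpp N D e v 1 w) = lam (gpp N D e u 1 w) := by
    intro e u v w hu hv hw
    rw [← hl.mul _ (mem e u 1 v hu o hv) _ (mem e v 1 w hv o hw)]
    congr 1
    funext q
    simp [gpp]
  have self : ∀ (e : ℤ) (u : G), u ∈ N.G0 → lam (gpp N D e u 1 u) = 1 := by
    intro e u hu
    have := coc e u u u hu hu hu
    exact mul_eq_left.1 this
  have add : ∀ (f' e : ℤ) (u v : G), u ∈ N.G0 → v ∈ N.G0 →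
      lam (gpp N D (f' + e) u 1 v) = lam (gpp N D e u 1 v) * lam (gpp N D f' u 1 v) := by
    intro f' e u v hu hv
    have e1 : cj N D f' (gpp N D e u 1 v) =
        gpp N D f' 1 1 u * gpp N D (f' + e) u 1 v * gpp N D f' v 1 1 := by
      funext q
      have h4 : ev D e (tau D f' q) = ev D (f' + e) q - ev D f' q := (h3 D f' e q q).1
      simp only [cj, gpp, Pi.mul_apply, h4, zpow_sub, one_mul, mul_one, mul_inv_rev, inv_inv]
      group
    have e2 := hl.conjS f' _ (mem e u 1 v hu o hv)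
    rw [e1, hl.mul _ (mul_mem (mem f' 1 1 u o o hu) (mem (f' + e) u 1 v hu o hv)) _
      (mem f' v 1 1 hv o o), hl.mul _ (mem f' 1 1 u o o hu) _ (mem (f' + e) u 1 v hu o hv)] at e2
    have e3 := coc f' v 1 u hv o hu
    have e4 := coc f' v u v hv hu hv
    rw [self f' v hv] at e4
    rw [← e2]
    have e5 : lam (gpp N D f' 1 1 u) * lam (gpp N D (f' + e) u 1 v) * lam (gpp N D f' v 1 1) =
      lam (gpp N D (f' + e) u 1 v) * (lam (gpp N D f' v 1 1) * lam (gpp N D f' 1 1 u)) := by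
      rw [mul_comm (lam (gpp N D f' v 1 1)), mul_comm (lam (gpp N D f' 1 1 u)), mul_assoc]
      
    rw [e5, e3, mul_assoc, e4, mul_one]
  have pw : ∀ (u v : G), u ∈ N.G0 → v ∈ N.G0 → ∀ e : ℤ,
      lam (gpp N D e u 1 v) = lam (gpp N D 1 u 1 v) ^ e := by
    intro u v hu hv e
    have z : lam (gpp N D 0 u 1 v) = 1 := by
      have := add 0 0 u v hu hv
      rw [add_zero] at this
      exact (mul_eq_left.1 this.symm)
    induction e using Int.induction_on with
    | zero => rw [z, zpow_zero]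
    | succ i ih => rw [add _ _ u v hu hv, ih, zpow_add, zpow_one, mul_comm]
    | pred i ih =>
      have := add (-(i : ℤ) - 1) 1 u v hu hv
      rw [sub_add_cancel, ih] at this
      rw [zpow_sub, zpow_one, this, mul_comm (lam (gpp N D 1 u 1 v)), mul_assoc, mul_inv_cancel,
        mul_one]
  rw [← pw u v hu hv e]
  have e1 : gpp N D e u x v = gpp N D e u x u * gpp N D e u 1 v := by
    funext q
    simp [gpp]
  rw [e1, hl.mul _ (mem e u x u hu hx hu) _ (mem e u 1 v hu o hv), h1 G N D lam hl e u hu x hx,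
    one_mul]

end Pool.Agent.W446.PR.LT2
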